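import Pool.Agent.Q85.AXT.Defs

/-!
Project AXT of helper85, job AXT-3: the singular points of an axisymmetric solution are on the axis.
-/

set_option autoImplicit false

open MeasureTheory Set Metric Filter Topology
open scoped ContDiff ENNReal
open H459R3.NS Pool.Agent.W268.NS Pool.Agent.Q67.VD Pool.Agent.TH305.AX

namespace Pool.Agent.Q176.AXT

open Pool.Agent.Q85.CL Pool.Agent.Q85.VL Pool.Agent.Q85.AXT

theorem sg_cont : Continuous sg := by
  unfold sg
  fun_prop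

theorem sg_nn (x : V) : 0 ≤ sg x := by
  unfold sg
  positivity

/-- the dissipation in the last times is small -/
theorem dis_small {T : ℝ} (hT : 0 < T) {f : ℝ × V → ℝ}
    (hf : IntegrableOn f (Ioo 0 T ×ˢ univ)) {ε : ℝ≥0∞} (hε : ε ≠ 0) :
    ∃ η : ℝ, 0 < η ∧ η ≤ T ∧
      ∫⁻ t in Ioo (T - η) T, ∫⁻ y, ENNReal.ofReal (f (t, y)) < ε := by
  have hprod : (volume : Measure (ℝ × V)).restrict (Ioo 0 T ×ˢ univ) =
      ((volume : Measure ℝ).restrict (Ioo 0 T)).prod (volume : Measure V) := by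
    rw [Measure.volume_eq_prod, ← Measure.prod_restrict, Measure.restrict_univ]
  have hf' : Integrable f (((volume : Measure ℝ).restrict (Ioo 0 T)).prod (volume : Measure V)) := by
    rw [← hprod]
    exact hf
  have hfin : ∫⁻ z, ENNReal.ofReal (f z)
      ∂(((volume : Measure ℝ).restrict (Ioo 0 T)).prod (volume : Measure V)) ≠ ⊤ := by
    refine (lt_of_le_of_lt (lintegral_mono fun z => ?_) hf'.hasFiniteIntegral).ne
    exact Real.ofReal_le_enorm (f z)
  rw [lintegral_prod _ hf'.aestronglyMeasurable.aemeasurable.ennreal_ofReal] at hfin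
  obtain ⟨δ, hδ, H⟩ := exists_pos_setLIntegral_lt_of_measure_lt hfin hε
  obtain ⟨δ', hδ'0, hδ'⟩ : ∃ δ' : ℝ, 0 < δ' ∧ ENNReal.ofReal δ' < δ := by
    rcases eq_or_ne δ ⊤ with h | h
    · exact ⟨1, one_pos, by rw [h]; exact ENNReal.ofReal_lt_top⟩
    · refine ⟨δ.toReal / 2, half_pos (ENNReal.toReal_pos hδ.ne' h), ?_⟩
      rw [ENNReal.ofReal_lt_iff_lt_toReal (by positivity) h]
      exact half_lt_self (ENNReal.toReal_pos hδ.ne' h)
  refine ⟨min δ' T, lt_min hδ'0 hT, min_le_right _ _, ?_⟩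
  have hsub : Ioo (T - min δ' T) T ⊆ Ioo 0 T := by
    intro t ht
    have := min_le_right δ' T
    exact ⟨by linarith [ht.1], ht.2⟩
  have h1 := H (Ioo (T - min δ' T) T) (by
    refine lt_of_le_of_lt (Measure.restrict_apply_le _ _) ?_
    rw [Real.volume_Ioo]
    refine lt_of_le_of_lt (ENNReal.ofReal_le_ofReal ?_) hδ'
    have := min_le_left δ' T
    linarith)
  rwa [Measure.restrict_restrict measurableSet_Ioo, inter_eq_left.2 hsub] at h1

/-- **AXT-3** -/
theorem stmOff : StmOff := by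
  intro ν T E u p hν hS hax a hsing
  by_contra hsg
  have hsg0 : 0 < sg a := lt_of_le_of_ne (sg_nn a) (Ne.symm hsg)
  obtain ⟨ρ, hρdef⟩ : ∃ ρ : ℝ, ρ = √(sg a) := ⟨_, rfl⟩
  have hρ : 0 < ρ := by rw [hρdef]; exact Real.sqrt_pos.2 hsg0
  have hT : 0 < T := by
    obtain ⟨t, ht, -⟩ := hsing 0 1 one_pos
    exact ht.1.trans ht.2
  obtain ⟨C, hC, K, hK, H⟩ := wd
  obtain ⟨E', hE'def⟩ : ∃ E' : ℝ, E' = √(max E 0) := ⟨_, rfl⟩
  have hE' : 0 ≤ E' := by rw [hE'def]; exact Real.sqrt_nonneg _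
  have hO : W221.NS.OSol ν T E' univ u p := by
    refine ⟨isOpen_univ, hS.smooth_u, hS.smooth_p, fun t ht x _ => hS.divfree t ht x,
      fun t ht x _ i => hS.momentum t ht x i, fun t ht => (hS.en_int t ht).integrableOn,
      fun t ht => ?_⟩
    rw [Measure.restrict_univ, hE'def, Real.sq_sqrt (le_max_right _ _)]
    exact (hS.en t ht).trans (le_max_left _ _)
  have H1 := (H ν T E' u p hν hE' hO hax).1
  have hε : ENNReal.ofReal (ν / C * (ρ / 2)) ≠ 0 := by
    rw [Ne, ENNReal.ofReal_eq_zero, not_le]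
    positivity
  obtain ⟨η, hη, hηT, hint⟩ := dis_small hT hS.dis hε
  obtain ⟨r, hrdef⟩ : ∃ r : ℝ, r = √(ν * η / 4) := ⟨_, rfl⟩
  have hr : 0 < r := by rw [hrdef]; positivity
  have hr2 : r ^ 2 / ν = η / 4 := by
    rw [hrdef, Real.sq_sqrt (by positivity)]
    field_simp
  obtain ⟨δ₁, hδ₁, hball⟩ : ∃ δ₁ : ℝ, 0 < δ₁ ∧ ∀ x, ‖x - a‖ ≤ δ₁ → ρ / 2 < √(sg x) := by
    have h1 : ∀ᶠ x in 𝓝 a, ρ / 2 < √(sg x) := by
      have h2 : ContinuousAt (fun x => √(sg x)) a := (Real.continuous_sqrt.comp sg_cont).continuousAt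
      refine h2.eventually (lt_mem_nhds ?_)
      show ρ / 2 < √(sg a)
      rw [← hρdef]
      linarith
    obtain ⟨δ, hδ, h2⟩ := Metric.eventually_nhds_iff.1 h1
    refine ⟨δ / 2, by positivity, fun x hx => h2 ?_⟩
    rw [dist_eq_norm]
    linarith
  obtain ⟨t, ht, htδ, x, hx, hB⟩ := hsing (K 0 * (ν + E' / √(ρ / 2)) / r ^ (0 + 1))
    (min δ₁ (η / 2)) (lt_min hδ₁ (by positivity))
  have hx1 := hball x (hx.trans (min_le_left _ _))
  have ht1 : T - η / 2 < t := by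
    have := min_le_right δ₁ (η / 2)
    linarith
  have hK0 := hK 0
  refine absurd hB (not_lt.2 ?_)
  have hwin : ∫⁻ s in Ioo (t - r ^ 2 / ν) t, ∫⁻ y, ENNReal.ofReal (W221.NS.gsq (u s) y)
      < ENNReal.ofReal (ν / C * (√(sg x) + r)) := by
    have hsub : Ioo (t - r ^ 2 / ν) t ⊆ Ioo (T - η) T := by
      intro s hs
      rw [hr2] at hs
      exact ⟨by linarith [hs.1], hs.2.trans ht.2⟩
    refine (lintegral_mono_set hsub).trans_lt (hint.trans_le (ENNReal.ofReal_le_ofReal ?_))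
    have : 0 < ν / C := by positivity
    gcongr
    linarith
  have h2 := (H1 r t x hr (by rw [hr2]; linarith) ht.2 hwin []).2
  have hR0 : 0 ≤ K 0 * (ν + E' / √(ρ / 2)) / r ^ (0 + 1) := by positivity
  refine (pi_norm_le_iff_of_nonneg hR0).2 fun i => ?_
  have h3 := h2 i
  rw [Real.norm_eq_abs]
  refine le_trans (le_of_eq ?_) (h3.trans ?_)
  · rfl
  · have h4 : √(ρ / 2) ≤ √(√(sg x) + r) := Real.sqrt_le_sqrt (by linarith)
    have h5 : 0 < √(ρ / 2) := Real.sqrt_pos.2 (by positivity)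
    simp only [List.length_nil]
    gcongr

end Pool.Agent.Q176.AXT
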