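import Pool.Agent.Q85.AXT.Defs

/-!
Project AXT of helper85, job AXT-1: the parabolic distance from the axis as a threshold.
-/

set_option autoImplicit false

open MeasureTheory Set Metric Filter Topology
open scoped ContDiff ENNReal
open H459R3.NS Pool.Agent.W268.NS Pool.Agent.Q67.VD Pool.Agent.TH305.AX

namespace Pool.Agent.Q176.AXT

open Pool.Agent.Q85.CL Pool.Agent.Q85.VL Pool.Agent.Q85.AXT

/-! ### the monotone majorant -/

/-- `s² (q + |log s|)^q` -/
noncomputable def ch (q s : ℝ) : ℝ := s ^ 2 * (q + |Real.log s|) ^ q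

theorem ch_pos {q s : ℝ} (hq : 0 < q) (hs : 0 < s) : 0 < ch q s := by
  unfold ch
  have : 0 < q + |Real.log s| := by positivity
  positivity

theorem ch_eq {q s : ℝ} (hq : 0 < q) (hs : 0 < s) :
    ch q s = (Real.exp (2 / q * Real.log s) * (q + |Real.log s|)) ^ q := by
  unfold ch
  rw [Real.mul_rpow (Real.exp_pos _).le (by positivity), ← Real.exp_mul]
  congr 1
  have : 2 / q * Real.log s * q = ((2 : ℕ) : ℝ) * Real.log s := by
    push_cast
    field_simp
  rw [this, Real.exp_nat_mul, Real.exp_log hs]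

theorem ch_mono {q s s' : ℝ} (hq : 0 < q) (hs : 0 < s) (h : s ≤ s') : ch q s ≤ ch q s' := by
  have hs' : 0 < s' := hs.trans_le h
  rw [ch_eq hq hs, ch_eq hq hs']
  refine Real.rpow_le_rpow (by positivity) ?_ hq.le
  have hv : Real.log s ≤ Real.log s' := Real.log_le_log hs h
  obtain ⟨v, hv0⟩ : ∃ v : ℝ, v = Real.log s := ⟨_, rfl⟩
  obtain ⟨w, hw0⟩ : ∃ w : ℝ, w = Real.log s' := ⟨_, rfl⟩
  rw [← hv0, ← hw0] at hv ⊢
  have h1 : Real.exp (2 / q * w) = Real.exp (2 / q * v) * Real.exp (2 / q * (w - v)) := by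
    rw [← Real.exp_add]
    congr 1
    ring
  have h2 : 1 + 2 / q * (w - v) ≤ Real.exp (2 / q * (w - v)) := by
    have := Real.add_one_le_exp (2 / q * (w - v))
    linarith
  have h3 : q + |v| ≤ (1 + 2 / q * (w - v)) * (q + |w|) := by
    have h4 : |v| ≤ |w| + (w - v) := by
      have := abs_sub_abs_le_abs_sub v w
      rw [abs_sub_comm, abs_of_nonneg (show 0 ≤ w - v by linarith)] at this
      linarith
    have h5 : 2 * (w - v) ≤ 2 / q * (w - v) * (q + |w|) := by
      have h6 : 2 / q * (w - v) * (q + |w|) = 2 * (w - v) + 2 / q * (w - v) * |w| := by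
        field_simp
      have h7 : 0 ≤ 2 / q * (w - v) * |w| := by
        have : 0 ≤ w - v := by linarith
        positivity
      linarith
    have h8 : (1 + 2 / q * (w - v)) * (q + |w|) = (q + |w|) + 2 / q * (w - v) * (q + |w|) := by ring
    linarith
  rw [h1, mul_assoc]
  refine mul_le_mul_of_nonneg_left ?_ (Real.exp_pos _).le
  refine h3.trans ?_
  gcongr

/-- the threshold is bounded by the majorant -/
theorem thr_le {M q ρ : ℝ} (hM : 0 ≤ M) (hq : 1 ≤ q) (hρ : 0 < ρ) :
    M / (ρ ^ 2 * (1 + |Real.log ρ|) ^ q) ≤ q ^ q * M / ch q ρ := by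
  have hq0 : 0 < q := by linarith
  have h1 : (q + |Real.log ρ|) ^ q ≤ q ^ q * (1 + |Real.log ρ|) ^ q := by
    rw [← Real.mul_rpow hq0.le (by positivity)]
    refine Real.rpow_le_rpow (by positivity) ?_ hq0.le
    have : |Real.log ρ| ≤ q * |Real.log ρ| := le_mul_of_one_le_left (abs_nonneg _) hq
    linarith
  have h2 := ch_pos hq0 hρ
  have h3 : 0 < (1 + |Real.log ρ|) ^ q := by positivity
  rw [div_le_div_iff₀ (by positivity) h2]
  unfold ch
  calc M * (ρ ^ 2 * (q + |Real.log ρ|) ^ q) ≤ M * (ρ ^ 2 * (q ^ q * (1 + |Real.log ρ|) ^ q)) := by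
        gcongr
    _ = q ^ q * M * (ρ ^ 2 * (1 + |Real.log ρ|) ^ q) := by ring

/-! ### the function on the space -/

/-- the distance from the axis in the maximum norm -/
def ha (y : V) : ℝ := max |y 0| |y 1|

theorem ha_nonneg (y : V) : 0 ≤ ha y := (abs_nonneg _).trans (le_max_left _ _)

theorem ha_le (y : V) : ha y ≤ √(sg y) := by
  unfold ha sg
  refine max_le ?_ ?_
  · exact Real.abs_le_sqrt (by nlinarith [sq_nonneg (y 1)])
  · exact Real.abs_le_sqrt (by nlinarith [sq_nonneg (y 0)])

/-- the function whose integral is estimated -/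
noncomputable def Fh (A q : ℝ) (y : V) : ℝ := A / ch q (ha y) / ‖y‖

theorem ch_nonneg {q : ℝ} (hq : 0 < q) (s : ℝ) : 0 ≤ ch q s := by
  unfold ch
  positivity

theorem Fh_nonneg {A q : ℝ} (hA : 0 ≤ A) (hq : 0 < q) (y : V) : 0 ≤ Fh A q y := by
  unfold Fh
  have := ch_nonneg hq (ha y)
  positivity

/-- integrability on the line -/
theorem int_log {q : ℝ} (hq : 2 < q) :
    IntegrableOn (fun s : ℝ => (s * (q - Real.log s) ^ (q - 1))⁻¹) (Ioc 0 1) := by
  have hpos : ∀ s : ℝ, 0 < s → s ≤ 1 → 0 < q - Real.log s := fun s hs h1 => by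
    have := Real.log_nonpos hs.le h1
    linarith
  have ha : ∀ i : ℕ, (0 : ℝ) < 1 / ((i : ℝ) + 1) := fun i => by positivity
  have ha1 : ∀ i : ℕ, 1 / ((i : ℝ) + 1) ≤ 1 := fun i => by
    rw [div_le_one (by positivity)]
    have : (0 : ℝ) ≤ i := by positivity
    linarith
  have hcont : ∀ i : ℕ, ContinuousOn (fun s : ℝ => (s * (q - Real.log s) ^ (q - 1))⁻¹)
      (Icc (1 / ((i : ℝ) + 1)) 1) := by
    intro i s hs
    have h0 : 0 < s := (ha i).trans_le hs.1
    have h1 := hpos s h0 hs.2
    refine ContinuousAt.continuousWithinAt ?_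
    have hl : ContinuousAt Real.log s := Real.continuousAt_log h0.ne'
    refine ContinuousAt.inv₀ (continuousAt_id.mul ((continuousAt_const.sub hl).rpow_const
      (Or.inl h1.ne'))) ?_
    positivity
  refine integrableOn_Ioc_of_intervalIntegral_norm_bounded_left (I := (q - 2)⁻¹)
    (a := fun i : ℕ => 1 / ((i : ℝ) + 1)) (l := atTop) (fun i => ?_)
    tendsto_one_div_add_atTop_nhds_zero_nat (Eventually.of_forall fun i => ?_)
  · exact ((hcont i).integrableOn_Icc).mono_set Ioc_subset_Icc_self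
  · have e1 : ∫ s in Ioc (1 / ((i : ℝ) + 1)) 1, ‖(s * (q - Real.log s) ^ (q - 1))⁻¹‖
        = ∫ s in Ioc (1 / ((i : ℝ) + 1)) 1, (s * (q - Real.log s) ^ (q - 1))⁻¹ := by
      refine setIntegral_congr_fun measurableSet_Ioc fun s hs => ?_
      have h0 : 0 < s := (ha i).trans hs.1
      have h1 := hpos s h0 hs.2
      exact Real.norm_of_nonneg (by positivity)
    have hderiv : ∀ s ∈ uIcc (1 / ((i : ℝ) + 1)) 1,
        HasDerivAt (fun s : ℝ => (q - 2)⁻¹ * (q - Real.log s) ^ (2 - q))
          ((s * (q - Real.log s) ^ (q - 1))⁻¹) s := by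
      intro s hs
      rw [uIcc_of_le (ha1 i)] at hs
      have h0 : 0 < s := (ha i).trans_le hs.1
      have h1 := hpos s h0 hs.2
      have h2 := (((Real.hasDerivAt_log h0.ne').const_sub q).rpow_const (p := 2 - q)
        (Or.inl h1.ne')).const_mul (q - 2)⁻¹
      refine h2.congr_deriv ?_
      have h3 : (2 - q - 1 : ℝ) = -(q - 1) := by ring
      rw [h3, Real.rpow_neg h1.le, mul_inv]
      have h4 : q - 2 ≠ 0 := by linarith
      field_simp
      ring
    have hint := intervalIntegral.integral_eq_sub_of_hasDerivAt hderiv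
      (by
        refine ContinuousOn.intervalIntegrable ?_
        rw [uIcc_of_le (ha1 i)]
        exact hcont i)
    rw [e1, ← intervalIntegral.integral_of_le (ha1 i), hint]
    have h1 := hpos _ (ha i) (ha1 i)
    have h4 : 0 < q - 2 := by linarith
    have h2 : 0 ≤ (q - 2)⁻¹ * (q - Real.log (1 / ((i : ℝ) + 1))) ^ (2 - q) := by positivity
    have h3 : (q - 2)⁻¹ * (q - Real.log 1) ^ (2 - q) ≤ (q - 2)⁻¹ := by
      rw [Real.log_one, sub_zero]
      refine mul_le_of_le_one_right (by positivity) ?_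
      exact Real.rpow_le_one_of_one_le_of_nonpos (by linarith) (by linarith)
    linarith

/-- the integral over the axis variable -/
theorem int_z {s : ℝ} (hs : 0 < s) (hs1 : s ≤ 1) :
    ∫⁻ z in Icc (-1 : ℝ) 1, ENNReal.ofReal (max s |z|)⁻¹ ≤
      ENNReal.ofReal (4 * (2 - Real.log s)) := by
  have h1 : ∀ z ∈ Icc (-1 : ℝ) 1, (max s |z|)⁻¹ ≤ 2 * (s + |z|)⁻¹ := by
    intro z _
    have h2 : 0 < max s |z| := hs.trans_le (le_max_left _ _)
    have h3 : 0 < s + |z| := by positivity
    have h4 : s + |z| ≤ 2 * max s |z| := by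
      have := le_max_left s |z|
      have := le_max_right s |z|
      linarith
    rw [← div_eq_mul_inv, inv_le_comm₀ h2 (by positivity), inv_div]
    linarith
  have hc : Continuous fun z : ℝ => 2 * (s + |z|)⁻¹ := by
    refine continuous_const.mul (Continuous.inv₀ (by fun_prop) fun z => ?_)
    positivity
  have h5 : ∫⁻ z in Icc (-1 : ℝ) 1, ENNReal.ofReal (max s |z|)⁻¹ ≤
      ∫⁻ z in Icc (-1 : ℝ) 1, ENNReal.ofReal (2 * (s + |z|)⁻¹) :=
    setLIntegral_mono (by fun_prop) fun z hz => ENNReal.ofReal_le_ofReal (h1 z hz)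
  refine h5.trans ?_
  rw [← ofReal_integral_eq_lintegral_ofReal (hc.integrableOn_Icc)
    (Eventually.of_forall fun z => by positivity)]
  refine ENNReal.ofReal_le_ofReal ?_
  rw [integral_Icc_eq_integral_Ioc, ← intervalIntegral.integral_of_le (by norm_num),
    intervalIntegral.integral_const_mul]
  have hc' : Continuous fun z : ℝ => (s + |z|)⁻¹ :=
    Continuous.inv₀ (by fun_prop) fun z => by positivity
  rw [← intervalIntegral.integral_add_adjacent_intervals (b := 0)
    (hc'.intervalIntegrable _ _) (hc'.intervalIntegrable _ _)]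
  have e1 : ∫ z in (0 : ℝ)..1, (s + |z|)⁻¹ = Real.log ((s + 1) / s) := by
    have : ∫ z in (0 : ℝ)..1, (s + |z|)⁻¹ = ∫ z in (0 : ℝ)..1, (s + z)⁻¹ := by
      refine intervalIntegral.integral_congr fun z hz => ?_
      rw [uIcc_of_le zero_le_one] at hz
      show (s + |z|)⁻¹ = (s + z)⁻¹
      rw [abs_of_nonneg hz.1]
    rw [this, intervalIntegral.integral_comp_add_left (fun z => z⁻¹) s, add_zero,
      integral_inv_of_pos hs (by linarith)]
  have e2 : ∫ z in (-1 : ℝ)..0, (s + |z|)⁻¹ = Real.log ((s + 1) / s) := by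
    have h := intervalIntegral.integral_comp_neg (a := (0 : ℝ)) (b := 1)
      (fun z => (s + |z|)⁻¹)
    simp only [abs_neg, neg_zero] at h
    rw [← h, e1]
  rw [e1, e2]
  have h6 : Real.log ((s + 1) / s) ≤ 2 - Real.log s := by
    rw [Real.log_div (by positivity) hs.ne']
    have : Real.log (s + 1) ≤ s := by
      have := Real.log_le_sub_one_of_pos (show 0 < s + 1 by linarith)
      linarith
    linarith
  linarith

theorem ha_meas : Measurable ha := by
  unfold ha
  fun_prop

theorem ch_meas (q : ℝ) : Measurable (ch q) := by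
  unfold ch
  have h1 : Measurable fun s : ℝ => q + |Real.log s| := by fun_prop
  exact (measurable_id.pow_const 2).mul (h1.pow_const q)

theorem Fh_meas (A q : ℝ) : Measurable (Fh A q) := by
  unfold Fh
  exact (measurable_const.div ((ch_meas q).comp ha_meas)).div measurable_norm

/-- the function of the distance from the axis -/
noncomputable def gg (A q s : ℝ) : ℝ := A / ch q s * (4 * (2 - Real.log s))

theorem gg_int {A q : ℝ} (hA : 0 ≤ A) (hq : 2 < q) :
    IntegrableOn (fun y : Fin 2 → ℝ => gg A q ‖y‖) (ball 0 1) := by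
  have h := (integrableOn_fun_norm_addHaar (volume : Measure (Fin 2 → ℝ))
    (f := fun s : ℝ => gg A q s) (r := 1)).2 (by
    have h1 : Module.finrank ℝ (Fin 2 → ℝ) = 2 := by simp
    rw [h1]
    have h2 : IntegrableOn (fun s : ℝ => 4 * A * (s * (q - Real.log s) ^ (q - 1))⁻¹) (Ioo 0 1) :=
      ((int_log hq).mono_set Ioo_subset_Ioc_self).const_mul (4 * A)
    refine h2.mono' ?_ ?_
    · refine Measurable.aestronglyMeasurable ?_
      refine (measurable_id.pow_const _).smul ?_
      unfold gg
      exact (measurable_const.div (ch_meas q)).mul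
        (measurable_const.mul (measurable_const.sub Real.measurable_log))
    · refine (ae_restrict_iff' measurableSet_Ioo).2 (Eventually.of_forall fun s hs => ?_)
      have h0 : 0 < s := hs.1
      have hl : Real.log s ≤ 0 := Real.log_nonpos h0.le hs.2.le
      have h3 : 0 < q - Real.log s := by linarith
      have hc : ch q s = s ^ 2 * ((q - Real.log s) ^ (q - 1) * (q - Real.log s)) := by
        unfold ch
        rw [abs_of_nonpos hl, ← sub_eq_add_neg]
        congr 1
        nth_rewrite 3 [← Real.rpow_one (q - Real.log s)]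
        rw [← Real.rpow_add h3]
        congr 1
        ring
      have h4 : 0 < (q - Real.log s) ^ (q - 1) := by positivity
      rw [smul_eq_mul, Real.norm_of_nonneg (by
        unfold gg
        rw [hc]
        have : 0 ≤ 2 - Real.log s := by linarith
        positivity)]
      unfold gg
      rw [hc]
      have e : s ^ (2 - 1) * (A / (s ^ 2 * ((q - Real.log s) ^ (q - 1) * (q - Real.log s))) *
          (4 * (2 - Real.log s))) = 4 * A * (s * (q - Real.log s) ^ (q - 1))⁻¹ *
            ((2 - Real.log s) / (q - Real.log s)) := by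
        rw [show (2 - 1 : ℕ) = 1 from rfl, pow_one]
        field_simp
      rw [e]
      refine mul_le_of_le_one_right (by positivity) ?_
      rw [div_le_one h3]
      linarith)
  exact h

theorem lint_in {A q : ℝ} (hA : 0 ≤ A) (hq : 2 < q) {y : Fin 2 → ℝ} (hy : y ∈ ball (0 : Fin 2 → ℝ) 1) :
    ∫⁻ z in Icc (-1 : ℝ) 1, ENNReal.ofReal (A / ch q ‖y‖ / max ‖y‖ |z|) ≤
      ENNReal.ofReal (gg A q ‖y‖) := by
  rw [mem_ball_zero_iff] at hy
  have hA' : 0 ≤ A / ch q ‖y‖ := div_nonneg hA (ch_nonneg (by linarith) _)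
  have h1 : ∀ z : ℝ, ENNReal.ofReal (A / ch q ‖y‖ / max ‖y‖ |z|) =
      ENNReal.ofReal (A / ch q ‖y‖) * ENNReal.ofReal (max ‖y‖ |z|)⁻¹ := by
    intro z
    rw [div_eq_mul_inv, ENNReal.ofReal_mul hA']
  simp only [h1]
  rw [lintegral_const_mul _ (by fun_prop)]
  rcases (norm_nonneg y).eq_or_lt with h0 | h0
  · have : ch q ‖y‖ = 0 := by
      unfold ch
      rw [← h0]
      ring
    rw [this, div_zero, ENNReal.ofReal_zero, zero_mul]
    exact bot_le
  · have h2 := int_z h0 hy.le
    unfold gg
    rw [ENNReal.ofReal_mul hA']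
    gcongr

theorem Fh_int {A q : ℝ} (hA : 0 ≤ A) (hq : 2 < q) : IntegrableOn (Fh A q) (ball 0 1) := by
  have hq0 : 0 < q := by linarith
  refine ⟨(Fh_meas A q).aestronglyMeasurable, ?_⟩
  rw [hasFiniteIntegral_iff_ofReal (Eventually.of_forall fun y => Fh_nonneg hA hq0 y)]
  have hmp := volume_preserving_piFinSuccAbove (fun _ : Fin 3 => ℝ) 2
  have hemb := (MeasurableEquiv.piFinSuccAbove (fun _ : Fin 3 => ℝ) 2).measurableEmbedding
  obtain ⟨G, hG⟩ : ∃ G : ℝ × (Fin 2 → ℝ) → ℝ≥0∞,
    G = fun p => ENNReal.ofReal (A / ch q ‖p.2‖ / max ‖p.2‖ |p.1|) := ⟨_, rfl⟩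
  have hGm : Measurable G := by
    rw [hG]
    refine ENNReal.measurable_ofReal.comp ?_
    refine (measurable_const.div ((ch_meas q).comp measurable_snd.norm)).div ?_
    fun_prop
  have hkey := hmp.setLIntegral_comp_preimage_emb hemb G (Icc (-1 : ℝ) 1 ×ˢ ball 0 1)
  have hnorm : ∀ y : V, ‖((MeasurableEquiv.piFinSuccAbove (fun _ : Fin 3 => ℝ) 2) y).2‖ = ha y ∧
      ‖y‖ = max (ha y) |y 2| ∧ ((MeasurableEquiv.piFinSuccAbove (fun _ : Fin 3 => ℝ) 2) y).1 = y 2 := by
    intro y
    refine ⟨?_, ?_, rfl⟩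
    · apply le_antisymm
      · refine (pi_norm_le_iff_of_nonneg (ha_nonneg y)).2 fun i => ?_
        fin_cases i
        · exact le_max_left |y 0| |y 1|
        · exact le_max_right |y 0| |y 1|
      · refine max_le ?_ ?_
        · exact norm_le_pi_norm ((MeasurableEquiv.piFinSuccAbove (fun _ : Fin 3 => ℝ) 2) y).2 0
        · exact norm_le_pi_norm ((MeasurableEquiv.piFinSuccAbove (fun _ : Fin 3 => ℝ) 2) y).2 1
    · apply le_antisymm
      · refine (pi_norm_le_iff_of_nonneg ((ha_nonneg y).trans (le_max_left _ _))).2 fun i => ?_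
        fin_cases i
        · exact (le_max_left |y 0| |y 1|).trans (le_max_left _ _)
        · exact (le_max_right |y 0| |y 1|).trans (le_max_left _ _)
        · exact le_max_right _ _
      · refine max_le (max_le ?_ ?_) ?_
        · exact norm_le_pi_norm y 0
        · exact norm_le_pi_norm y 1
        · exact norm_le_pi_norm y 2
  have hsub : ball (0 : V) 1 ⊆ (MeasurableEquiv.piFinSuccAbove (fun _ : Fin 3 => ℝ) 2) ⁻¹'
      (Icc (-1 : ℝ) 1 ×ˢ ball 0 1) := by
    intro y hy
    rw [mem_ball_zero_iff] at hy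
    obtain ⟨h1, h2, h3⟩ := hnorm y
    rw [h2, max_lt_iff] at hy
    rw [mem_preimage, mem_prod, h3, mem_ball_zero_iff, h1, mem_Icc, ← abs_le]
    exact ⟨hy.2.le, hy.1⟩
  have hfun : ∀ y : V, ENNReal.ofReal (Fh A q y) =
      G ((MeasurableEquiv.piFinSuccAbove (fun _ : Fin 3 => ℝ) 2) y) := by
    intro y
    obtain ⟨h1, h2, h3⟩ := hnorm y
    rw [hG]
    simp only
    rw [h1, h3]
    unfold Fh
    rw [h2]
  calc ∫⁻ y in ball (0 : V) 1, ENNReal.ofReal (Fh A q y) =
      ∫⁻ y in ball (0 : V) 1, G ((MeasurableEquiv.piFinSuccAbove (fun _ : Fin 3 => ℝ) 2) y) := by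
        simp only [hfun]
    _ ≤ ∫⁻ y in (MeasurableEquiv.piFinSuccAbove (fun _ : Fin 3 => ℝ) 2) ⁻¹'
        (Icc (-1 : ℝ) 1 ×ˢ ball 0 1), G ((MeasurableEquiv.piFinSuccAbove (fun _ : Fin 3 => ℝ) 2) y) :=
        lintegral_mono_set hsub
    _ = ∫⁻ p in Icc (-1 : ℝ) 1 ×ˢ ball (0 : Fin 2 → ℝ) 1, G p := hkey
    _ = ∫⁻ y in ball (0 : Fin 2 → ℝ) 1, ∫⁻ z in Icc (-1 : ℝ) 1, G (z, y) := by
        rw [Measure.volume_eq_prod, ← Measure.prod_restrict, lintegral_prod_symm _ hGm.aemeasurable]
    _ ≤ ∫⁻ y in ball (0 : Fin 2 → ℝ) 1, ENNReal.ofReal (gg A q ‖y‖) := by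
        refine setLIntegral_mono' measurableSet_ball fun y hy => ?_
        rw [hG]
        exact lint_in hA hq hy
    _ < ⊤ := by
        have h := (gg_int hA hq).hasFiniteIntegral
        refine lt_of_le_of_lt (lintegral_mono fun y => ?_) h
        exact Real.ofReal_le_enorm _

/-! ### small balls and translations -/

theorem small_ball {F : V → ℝ} (hint : IntegrableOn F (ball 0 1)) {μ : ℝ}
    (hμ : 0 < μ) : ∃ S : ℝ, 0 < S ∧ S < 1 ∧ ∫ y in closedBall (0 : V) S, F y ≤ μ := by
  have hlim := tendsto_setIntegral_of_antitone (μ := volume) (f := F)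
    (s := fun n : ℕ => closedBall (0 : V) (1 / ((n : ℝ) + 2)))
    (fun n => isClosed_closedBall.measurableSet)
    (fun n k hnk => closedBall_subset_closedBall (by
      have : (n : ℝ) ≤ k := by exact_mod_cast hnk
      exact one_div_le_one_div_of_le (by positivity) (by linarith)))
    ⟨0, by
      refine hint.mono_set fun y hy => ?_
      rw [mem_closedBall_zero_iff] at hy
      rw [mem_ball_zero_iff]
      refine hy.trans_lt ?_
      norm_num⟩
  have h0 : ∫ y in ⋂ n : ℕ, closedBall (0 : V) (1 / ((n : ℝ) + 2)), F y = 0 := by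
    have hsub : (⋂ n : ℕ, closedBall (0 : V) (1 / ((n : ℝ) + 2))) ⊆ {0} := by
      intro y hy
      rw [mem_iInter] at hy
      have h1 : ∀ n : ℕ, ‖y‖ ≤ 1 / ((n : ℝ) + 1) := fun n => by
        have := hy n
        rw [mem_closedBall_zero_iff] at this
        refine this.trans (one_div_le_one_div_of_le (by positivity) (by linarith))
      have h2 : ‖y‖ ≤ 0 := ge_of_tendsto' tendsto_one_div_add_atTop_nhds_zero_nat h1
      simpa using norm_le_zero_iff.1 h2
    exact setIntegral_measure_zero _ (measure_mono_null hsub (measure_singleton _))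
  rw [h0] at hlim
  obtain ⟨n, hn⟩ := (hlim.eventually (gt_mem_nhds hμ)).exists
  refine ⟨1 / ((n : ℝ) + 2), by positivity, ?_, hn.le⟩
  rw [div_lt_one (by positivity)]
  have : (0 : ℝ) ≤ n := by positivity
  linarith

theorem trans_ball (F : V → ℝ) (x : V) (S : ℝ) :
    ∫ y in closedBall x S, F (y - x) = ∫ y in closedBall (0 : V) S, F y := by
  have h3 : MeasurePreserving (fun y : V => y - x) volume volume :=
    measurePreserving_sub_right volume x
  have h4 := h3.setIntegral_preimage_emb (MeasurableEquiv.subRight x).measurableEmbedding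
    F (closedBall (0 : V) S)
  rw [← h4]
  congr 2
  ext y
  simp [mem_closedBall, dist_eq_norm]

theorem trans_int {F : V → ℝ} (x : V) {S : ℝ} (hF : IntegrableOn F (closedBall 0 S)) :
    IntegrableOn (fun y => F (y - x)) (closedBall x S) := by
  have h3 : MeasurePreserving (fun y : V => y - x) volume volume :=
    measurePreserving_sub_right volume x
  have h4 := (h3.integrableOn_comp_preimage (MeasurableEquiv.subRight x).measurableEmbedding
    (s := closedBall (0 : V) S) (f := F)).2 hF
  refine h4.mono_set fun y hy => ?_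
  rw [mem_closedBall, dist_eq_norm] at hy
  rw [mem_preimage, mem_closedBall_zero_iff]
  exact hy

theorem ae_ne (c : ℝ) : ∀ᵐ y : V, y 0 ≠ c := by
  have h : (volume : Measure V) {y | y 0 = c} = 0 := by
    rw [volume_pi]
    exact Measure.pi_hyperplane (fun _ : Fin 3 => (volume : Measure ℝ)) 0 c
  rw [ae_iff]
  simpa using h

theorem norm_eq (y : V) : ‖y‖ = max (ha y) |y 2| := by
  apply le_antisymm
  · refine (pi_norm_le_iff_of_nonneg ((ha_nonneg y).trans (le_max_left _ _))).2 fun i => ?_
    fin_cases i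
    · exact (le_max_left |y 0| |y 1|).trans (le_max_left _ _)
    · exact (le_max_right |y 0| |y 1|).trans (le_max_left _ _)
    · exact le_max_right _ _
  · refine max_le (max_le ?_ ?_) ?_
    · exact norm_le_pi_norm y 0
    · exact norm_le_pi_norm y 1
    · exact norm_le_pi_norm y 2

theorem sg_cont' : Continuous sg := by
  unfold sg
  fun_prop

/-- **AXT-1** -/
theorem stmThr : StmThr := by
  intro T₀ T a R M q hM hq
  have hq0 : 0 < q := by linarith
  have hρ : ∀ t ∈ Ioo T₀ T, ∀ y : V, 0 < √(sg y) + √(T - t) := by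
    intro t ht y
    have : 0 < √(T - t) := Real.sqrt_pos.mpr (by linarith [ht.2])
    positivity
  have hcont : ∀ t ∈ Ioo T₀ T, Continuous (fun y : V => M / ((√(sg y) + √(T - t)) ^ 2 *
      (1 + |Real.log (√(sg y) + √(T - t))|) ^ q)) := by
    intro t ht
    have h1 : Continuous fun y : V => √(sg y) + √(T - t) :=
      (Real.continuous_sqrt.comp sg_cont').add continuous_const
    have h2 : Continuous fun y : V => Real.log (√(sg y) + √(T - t)) :=
      h1.log fun y => (hρ t ht y).ne'
    refine continuous_const.div ((h1.pow 2).mul ((continuous_const.add h2.abs).rpow_const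
      fun y => Or.inl ?_)) fun y => ?_
    · have : 0 < 1 + |Real.log (√(sg y) + √(T - t))| := by positivity
      exact this.ne'
    · have := hρ t ht y
      positivity
  refine ⟨hcont, fun t ht y => by have := hρ t ht y; positivity, ?_⟩
  obtain ⟨A, hAdef⟩ : ∃ A : ℝ, A = q ^ q * M := ⟨_, rfl⟩
  have hA : 0 ≤ A := by rw [hAdef]; positivity
  have hFn : ∀ y, 0 ≤ Fh A q y := Fh_nonneg hA hq0
  intro μ hμ
  obtain ⟨S₀, hS₀, hS₁, hJ⟩ := small_ball (Fh_int hA hq) (show 0 < μ / 2 by positivity)
  refine ⟨S₀, hS₀, fun t ht x S hS hSS _ => ?_⟩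
  have hint0 : ∀ S' : ℝ, S' < 1 → IntegrableOn (Fh A q) (closedBall 0 S') := fun S' hS' =>
    (Fh_int hA hq).mono_set fun y hy => by
      rw [mem_closedBall_zero_iff] at hy
      rw [mem_ball_zero_iff]
      exact hy.trans_lt hS'
  have hS1 : S < 1 := hSS.trans_lt hS₁
  have hJS : ∫ y in closedBall (0 : V) S, Fh A q y ≤ μ / 2 :=
    (setIntegral_mono_set (hint0 S₀ hS₁) (Eventually.of_forall fun y => hFn y)
      (closedBall_subset_closedBall hSS).eventuallyLE).trans hJ
  obtain ⟨b, hb⟩ : ∃ b : V, b = ![0, 0, x 2] := ⟨_, rfl⟩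
  have hb0 : b 0 = 0 := by rw [hb]; rfl
  have hb1 : b 1 = 0 := by rw [hb]; rfl
  have hb2 : b 2 = x 2 := by rw [hb]; rfl
  have hhb : ∀ y : V, ha (y - b) = ha y := by
    intro y
    unfold ha
    rw [Pi.sub_apply, Pi.sub_apply, hb0, hb1, sub_zero, sub_zero]
  have hind : Integrable ((closedBall b S).indicator fun y => Fh A q (y - b)) :=
    (trans_int b (hint0 S hS1)).integrable_indicator isClosed_closedBall.measurableSet
  have hgi : IntegrableOn (fun y => Fh A q (y - x) +
      (closedBall b S).indicator (fun y => Fh A q (y - b)) y) (closedBall x S) :=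
    (trans_int x (hint0 S hS1)).add hind.integrableOn
  have hle : ∫ y in closedBall x S, (M / ((√(sg y) + √(T - t)) ^ 2 *
      (1 + |Real.log (√(sg y) + √(T - t))|) ^ q)) / ‖y - x‖ ≤
      ∫ y in closedBall x S, (Fh A q (y - x) +
        (closedBall b S).indicator (fun y => Fh A q (y - b)) y) := by
    refine integral_mono_of_nonneg (Eventually.of_forall fun y => by
      have := hρ t ht y
      simp only [Pi.zero_apply]; positivity) hgi ?_
    refine (ae_restrict_iff' isClosed_closedBall.measurableSet).2 ?_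
    filter_upwards [ae_ne 0, ae_ne (x 0)] with y hy0 hyx0 hyS
    rw [mem_closedBall, dist_eq_norm] at hyS
    have hy : 0 < ha y := (abs_pos.2 hy0).trans_le (le_max_left _ _)
    have hyx : 0 < ha (y - x) := by
      refine lt_of_lt_of_le (abs_pos.2 ?_) (le_max_left _ _)
      rw [Pi.sub_apply]
      exact sub_ne_zero.2 hyx0
    have h1 : M / ((√(sg y) + √(T - t)) ^ 2 *
        (1 + |Real.log (√(sg y) + √(T - t))|) ^ q) ≤ A / ch q (ha y) := by
      refine (thr_le hM (by linarith) (hρ t ht y)).trans ?_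
      rw [← hAdef]
      have h2 := ch_mono hq0 hy (show ha y ≤ √(sg y) + √(T - t) by
        have := ha_le y
        have := Real.sqrt_nonneg (T - t)
        linarith)
      exact div_le_div_of_nonneg_left hA (ch_pos hq0 hy) h2
    have hx0 : 0 ≤ Fh A q (y - x) := hFn _
    have ha0 : 0 ≤ (closedBall b S).indicator (fun y => Fh A q (y - b)) y :=
      indicator_nonneg (fun y _ => hFn _) y
    have nx : ‖y - x‖ = max (ha (y - x)) |y 2 - x 2| := norm_eq _
    have nb : ‖y - b‖ = max (ha y) |y 2 - x 2| := by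
      rw [norm_eq, hhb, Pi.sub_apply, hb2]
    rcases le_or_gt (ha y) (ha (y - x)) with hc | hc
    · have hnn : ‖y - b‖ ≤ ‖y - x‖ := by
        rw [nx, nb]
        exact max_le_max hc le_rfl
      have hbpos : 0 < ‖y - b‖ := by
        rw [nb]
        exact hy.trans_le (le_max_left _ _)
      have h2 : y ∈ closedBall b S := by
        rw [mem_closedBall, dist_eq_norm]; exact hnn.trans hyS
      rw [indicator_of_mem h2]
      have h3 : M / ((√(sg y) + √(T - t)) ^ 2 *
          (1 + |Real.log (√(sg y) + √(T - t))|) ^ q) / ‖y - x‖ ≤ Fh A q (y - b) := by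
        unfold Fh
        rw [hhb]
        have h4 : 0 ≤ A / ch q (ha y) := div_nonneg hA (ch_nonneg hq0 _)
        exact div_le_div₀ h4 h1 hbpos hnn
      linarith
    · have h3 : M / ((√(sg y) + √(T - t)) ^ 2 *
          (1 + |Real.log (√(sg y) + √(T - t))|) ^ q) / ‖y - x‖ ≤ Fh A q (y - x) := by
        unfold Fh
        have h4 : A / ch q (ha y) ≤ A / ch q (ha (y - x)) :=
          div_le_div_of_nonneg_left hA (ch_pos hq0 hyx) (ch_mono hq0 hyx hc.le)
        exact div_le_div_of_nonneg_right (h1.trans h4) (norm_nonneg _)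
      linarith
  refine hle.trans ?_
  rw [integral_add (trans_int x (hint0 S hS1)) hind.integrableOn, trans_ball]
  have h5 : ∫ y in closedBall x S, (closedBall b S).indicator (fun y => Fh A q (y - b)) y ≤
      μ / 2 := by
    refine (setIntegral_le_integral hind (Eventually.of_forall fun y =>
      indicator_nonneg (fun y _ => hFn _) y)).trans ?_
    rw [integral_indicator isClosed_closedBall.measurableSet, trans_ball]
    exact hJS
  linarith

end Pool.Agent.Q176.AXT
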